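import Pool.Agent.W2helper21.RF.Stm

/-!
# Pieces STR and PATH of helper21's project RF (MP_e2be99_lc)
-/

namespace Pool.Agent.W2helper15.RF

open MvPolynomial Pool.Agent.W2helper21.RF

variable {F : Type*} [Field F]

theorem comb {a b m n : ℕ} (ha : 2 ^ a ≤ m) (hb : 2 ^ b ≤ n) :
    2 ^ (if a = b then a + 1 else max a b) ≤ m + n := by
  split_ifs with h
  · subst h
    rw [pow_succ]; omega
  · rcases le_total a b with h' | h'
    · rw [max_eq_right h']; omega
    · rw [max_eq_left h']; omega

theorem st_le (D : Fm F) : D.vars ≠ ∅ → 2 ^ D.st ≤ D.nl := by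
  induction D with
  | leaf p =>
    intro h
    have h' : p.vars ≠ ∅ := h
    simp [Fm.st, Fm.nl, h']
  | add f g ihf ihg =>
    intro h
    unfold Fm.st Fm.nl
    by_cases hf : f.vars = ∅
    · rw [if_pos hf]
      have hg : g.vars ≠ ∅ := by
        intro hg
        apply h
        show f.vars ∪ g.vars = ∅
        rw [hf, hg]; rfl
      exact (ihg hg).trans (Nat.le_add_left _ _)
    · rw [if_neg hf]
      by_cases hg : g.vars = ∅
      · rw [if_pos hg]
        exact (ihf hf).trans (Nat.le_add_right _ _)
      · rw [if_neg hg]
        exact comb (ihf hf) (ihg hg)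
  | mul f g ihf ihg =>
    intro h
    unfold Fm.st Fm.nl
    by_cases hf : f.vars = ∅
    · rw [if_pos hf]
      have hg : g.vars ≠ ∅ := by
        intro hg
        apply h
        show f.vars ∪ g.vars = ∅
        rw [hf, hg]; rfl
      exact (ihg hg).trans (Nat.le_add_left _ _)
    · rw [if_neg hf]
      by_cases hg : g.vars = ∅
      · rw [if_pos hg]
        exact (ihf hf).trans (Nat.le_add_right _ _)
      · rw [if_neg hg]
        exact comb (ihf hf) (ihg hg)

theorem nl_le (n : ℕ) (D : Fm F) : (∀ u ∈ D.vars, u < n) →
    D.nl ≤ ∑ u ∈ Finset.range n, D.rdc u := by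
  induction D with
  | leaf p =>
    intro h
    have h' : ∀ u ∈ p.vars, u < n := h
    unfold Fm.nl
    split_ifs with hp
    · exact Nat.zero_le _
    · obtain ⟨u, hu⟩ := Finset.nonempty_iff_ne_empty.2 hp
      have h1 : (Fm.leaf p).rdc u = 1 := by
        unfold Fm.rdc
        rw [if_pos hu]
      calc 1 = (Fm.leaf p).rdc u := h1.symm
        _ ≤ ∑ u ∈ Finset.range n, (Fm.leaf p).rdc u :=
          Finset.single_le_sum (f := fun u => (Fm.leaf p).rdc u) (fun _ _ => Nat.zero_le _)
            (Finset.mem_range.2 (h' u hu))
  | add f g ihf ihg =>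
    intro h
    have h' : ∀ u ∈ f.vars ∪ g.vars, u < n := h
    have h1 := ihf fun u hu => h' u (Finset.mem_union_left _ hu)
    have h2 := ihg fun u hu => h' u (Finset.mem_union_right _ hu)
    have e : ∑ u ∈ Finset.range n, (Fm.add f g).rdc u
        = ∑ u ∈ Finset.range n, f.rdc u + ∑ u ∈ Finset.range n, g.rdc u := by
      rw [← Finset.sum_add_distrib]
      rfl
    rw [e]
    exact Nat.add_le_add h1 h2
  | mul f g ihf ihg =>
    intro h
    have h' : ∀ u ∈ f.vars ∪ g.vars, u < n := h
    have h1 := ihf fun u hu => h' u (Finset.mem_union_left _ hu)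
    have h2 := ihg fun u hu => h' u (Finset.mem_union_right _ hu)
    have e : ∑ u ∈ Finset.range n, (Fm.mul f g).rdc u
        = ∑ u ∈ Finset.range n, f.rdc u + ∑ u ∈ Finset.range n, g.rdc u := by
      rw [← Finset.sum_add_distrib]
      rfl
    rw [e]
    exact Nat.add_le_add h1 h2

/-- **Piece STR.** -/
theorem p_str (F : Type*) [Field F] : P_STR F := by
  intro D hD
  refine ⟨st_le D hD, fun n k hn hk => ?_⟩
  refine (nl_le n D hn).trans ?_
  calc ∑ u ∈ Finset.range n, D.rdc u ≤ ∑ _u ∈ Finset.range n, k :=
        Finset.sum_le_sum fun u _ => hk u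
    _ = n * k := by simp

/-- **Piece PATH.** -/
theorem p_path (F : Type*) [Field F] : P_PATH F := by
  intro D
  induction D with
  | leaf p =>
    intro _
    refine ⟨[(false, Fm.leaf p)], Plug.nil _, ?_⟩
    intro q hq
    rw [List.mem_singleton] at hq
    subst hq
    exact Or.inr (Or.inr ⟨by simp [Fm.st], p, rfl⟩)
  | add f g ihf ihg =>
    intro h
    by_cases hf : f.vars = ∅
    · have hg : g.vars ≠ ∅ := by
        intro hg
        apply h
        show f.vars ∪ g.vars = ∅
        rw [hf, hg]; rfl
      have e : (Fm.add f g).st = g.st := by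
        rw [Fm.st, if_pos hf]
      obtain ⟨l, hl, hl2⟩ := ihg hg
      refine ⟨(false, f) :: l, Plug.addR hl, ?_⟩
      intro p hp
      rcases List.mem_cons.1 hp with rfl | hp
      · exact Or.inr (Or.inl hf)
      · rw [e]; exact hl2 p hp
    · by_cases hg : g.vars = ∅
      · have e : (Fm.add f g).st = f.st := by
          rw [Fm.st, if_neg hf, if_pos hg]
        obtain ⟨l, hl, hl2⟩ := ihf hf
        refine ⟨(false, g) :: l, Plug.addL hl, ?_⟩
        intro p hp
        rcases List.mem_cons.1 hp with rfl | hp
        · exact Or.inr (Or.inl hg)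
        · rw [e]; exact hl2 p hp
      · by_cases hfg : f.st = g.st
        · have e : (Fm.add f g).st = f.st + 1 := by
            rw [Fm.st, if_neg hf, if_neg hg, if_pos hfg]
          refine ⟨[(false, g), (false, f)], Plug.addL (Plug.nil _), ?_⟩
          intro p hp
          rw [e]
          simp only [List.mem_cons, List.not_mem_nil, or_false] at hp
          rcases hp with rfl | rfl
          · left; show g.st < _; omega
          · left; show f.st < _; omega
        · have e : (Fm.add f g).st = max f.st g.st := by
            rw [Fm.st, if_neg hf, if_neg hg, if_neg hfg]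
          rcases lt_or_gt_of_ne hfg with hlt | hlt
          · rw [max_eq_right hlt.le] at e
            obtain ⟨l, hl, hl2⟩ := ihg hg
            refine ⟨(false, f) :: l, Plug.addR hl, ?_⟩
            intro p hp
            rcases List.mem_cons.1 hp with rfl | hp
            · left; rw [e]; exact hlt
            · rw [e]; exact hl2 p hp
          · rw [max_eq_left hlt.le] at e
            obtain ⟨l, hl, hl2⟩ := ihf hf
            refine ⟨(false, g) :: l, Plug.addL hl, ?_⟩
            intro p hp
            rcases List.mem_cons.1 hp with rfl | hp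
            · left; rw [e]; exact hlt
            · rw [e]; exact hl2 p hp
  | mul f g ihf ihg =>
    intro h
    by_cases hf : f.vars = ∅
    · have hg : g.vars ≠ ∅ := by
        intro hg
        apply h
        show f.vars ∪ g.vars = ∅
        rw [hf, hg]; rfl
      have e : (Fm.mul f g).st = g.st := by
        rw [Fm.st, if_pos hf]
      obtain ⟨l, hl, hl2⟩ := ihg hg
      refine ⟨(true, f) :: l, Plug.mulR hl, ?_⟩
      intro p hp
      rcases List.mem_cons.1 hp with rfl | hp
      · exact Or.inr (Or.inl hf)
      · rw [e]; exact hl2 p hp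
    · by_cases hg : g.vars = ∅
      · have e : (Fm.mul f g).st = f.st := by
          rw [Fm.st, if_neg hf, if_pos hg]
        obtain ⟨l, hl, hl2⟩ := ihf hf
        refine ⟨(true, g) :: l, Plug.mulL hl, ?_⟩
        intro p hp
        rcases List.mem_cons.1 hp with rfl | hp
        · exact Or.inr (Or.inl hg)
        · rw [e]; exact hl2 p hp
      · by_cases hfg : f.st = g.st
        · have e : (Fm.mul f g).st = f.st + 1 := by
            rw [Fm.st, if_neg hf, if_neg hg, if_pos hfg]
          refine ⟨[(true, g), (false, f)], Plug.mulL (Plug.nil _), ?_⟩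
          intro p hp
          rw [e]
          simp only [List.mem_cons, List.not_mem_nil, or_false] at hp
          rcases hp with rfl | rfl
          · left; show g.st < _; omega
          · left; show f.st < _; omega
        · have e : (Fm.mul f g).st = max f.st g.st := by
            rw [Fm.st, if_neg hf, if_neg hg, if_neg hfg]
          rcases lt_or_gt_of_ne hfg with hlt | hlt
          · rw [max_eq_right hlt.le] at e
            obtain ⟨l, hl, hl2⟩ := ihg hg
            refine ⟨(true, f) :: l, Plug.mulR hl, ?_⟩
            intro p hp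
            rcases List.mem_cons.1 hp with rfl | hp
            · left; rw [e]; exact hlt
            · rw [e]; exact hl2 p hp
          · rw [max_eq_left hlt.le] at e
            obtain ⟨l, hl, hl2⟩ := ihf hf
            refine ⟨(true, g) :: l, Plug.mulL hl, ?_⟩
            intro p hp
            rcases List.mem_cons.1 hp with rfl | hp
            · left; rw [e]; exact hlt
            · rw [e]; exact hl2 p hp

end Pool.Agent.W2helper15.RF
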